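import Pool.Agent.Helper28.T3E.StF
import Pool.Agent.Helper8.T3.M_Unb3

/-!
# Project T3E (MP_1d384c_nt), module UNBE: back to the group with lower left entry divisible by `3^n`
-/

set_option autoImplicit false

namespace Pool.Agent.Helper71.T3E

open Pool.Agent.Helper28.T3E

/-- **Module UNBE.** The statement is the one of `UNB3` (project T3), proved by helper8. -/
theorem hUNBE : StUNBE := Pool.Agent.Helper8.T3.hUnb3

end Pool.Agent.Helper71.T3E
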